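import Pool.Agent.Helper4.IX.Core
import Pool.Agent.Helper62.HX.Prep
import Pool.Agent.Helper38.GX.Data

/-!
# The eigen-summands over a finitely generated ring
-/

set_option autoImplicit false
set_option linter.unusedSectionVars false

open Polynomial Matrix Finset NumberField IsDedekindDomain

namespace Pool.Agent.Helper4.IX

open Pool.Agent.Helper62.BM Pool.Agent.Helper62.BX Pool.Agent.Helper62.CX Pool.Agent.Helper62.GX
  Pool.Agent.Helper90.BM Pool.Agent.Helper4.BM Pool.Agent.Helper4.BX Pool.Agent.Helper4.CX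
  Pool.Agent.Helper62.IX Pool.Agent.Helper62.JX Pool.Agent.Helper62.HX Pool.Agent.Helper4.GX
open Pool.Agent.Helper62.BW (dt coeff_dt map_dt sep_clear sep_map map_ne Fam Dat Gen)
open Pool.Agent.Helper62.VX (Node1)
open Pool.Agent.Helper4.BW (map_evalRingHom)

/-- few zeros for the summand with the index `r` -/
def FewAt {ι : Type} [Fintype ι] [DecidableEq ι] (A : Type) [CommRing A] (m : ℕ) (ρ : ι → ℕ) (d : ℕ)
    (a : ι → A[X][X]) : Prop :=
  ∀ H : MvPolynomial (Fin d × Fin d) A[X], H ≠ 0 → ∀ ε : ℝ, 0 < ε →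
    ∃ (p₀ : ℕ) (a₀ : A), a₀ ≠ 0 ∧
      ∀ (p : ℕ) [Fact p.Prime] (k : Type) [Field k] [CharP k p] (φ : A →+* k), p₀ ≤ p →
      m ∣ p - 1 → φ a₀ ≠ 0 → ∀ T : Finset k, (∀ t ∈ T, t ^ p = t ∧
        MvPolynomial.eval₂ ((evalRingHom t).comp (mapRingHom φ))
          (fun s : Fin d × Fin d =>
          (YG p (fun j => ρ j * ((p - 1) / m)) d d
            (fun j => (a j).map (mapRingHom φ)) s.1 s.2).eval t) H = 0) →
        (T.card : ℝ) ≤ ε * p

section nat

variable {ι : Type} [Fintype ι] [DecidableEq ι]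

theorem vis_pos {m r : ℕ} {e : ι → ℕ} (hm : 0 < m) (l : Vis m r e) :
    0 < rho m r e l ∧ rho m r e l < m :=
  ⟨Nat.pos_of_ne_zero fun h => l.2 (Nat.dvd_of_mod_eq_zero h), Nat.mod_lt _ hm⟩

theorem invis {m r : ℕ} {e : ι → ℕ} (l : ι) (h : ¬ ¬ m ∣ r * e l) : rho m r e l = 0 :=
  Nat.mod_eq_zero_of_dvd (not_not.1 h)

theorem vis_add {m r : ℕ} {e : ι → ℕ} (hm : 0 < m) (i j : Vis m r e) (h : m ∣ r * (e i + e j)) :
    rho m r e i + rho m r e j = m := by
  obtain ⟨a1, a2⟩ := vis_pos hm i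
  obtain ⟨b1, b2⟩ := vis_pos hm j
  have h1 : m ∣ rho m r e i + rho m r e j := by
    have h2 : (rho m r e i + rho m r e j) ≡ r * e i + r * e j [MOD m] :=
      Nat.ModEq.add (Nat.mod_modEq _ _) (Nat.mod_modEq _ _)
    rw [← mul_add] at h2
    exact Nat.modEq_zero_iff_dvd.1 (h2.trans (Nat.modEq_zero_iff_dvd.2 h))
  obtain ⟨c, hc⟩ := h1
  have hc1 : c = 1 := by
    rcases Nat.lt_trichotomy c 1 with h4 | h4 | h4
    · have : c = 0 := by omega
      rw [this, mul_zero] at hc
      omega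
    · exact h4
    · have : m * 2 ≤ m * c := Nat.mul_le_mul_left _ h4
      omega
  rw [hc, hc1, mul_one]

/-- sums over the visible indices -/
theorem sum_vis {M : Type} [AddCommMonoid M] {m r : ℕ} {e : ι → ℕ} (f : ι → M)
    (hf : ∀ l, ¬ ¬ m ∣ r * e l → f l = 0) : ∑ l : Vis m r e, f l = ∑ l, f l := by
  have h1 : ∑ l ∈ Finset.univ.filter (fun l => ¬ m ∣ r * e l), f l = ∑ l : Vis m r e, f l :=
    Finset.sum_subtype _ (fun x => by simp) f
  rw [← h1]
  refine Finset.sum_subset (Finset.subset_univ _) fun l _ hl => hf l fun h => hl ?_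
  exact Finset.mem_filter.2 ⟨Finset.mem_univ _, h⟩

theorem prod_vis {M : Type} [CommMonoid M] {m r : ℕ} {e : ι → ℕ} (f : ι → M)
    (hf : ∀ l, ¬ ¬ m ∣ r * e l → f l = 1) : ∏ l : Vis m r e, f l = ∏ l, f l := by
  have h1 : ∏ l ∈ Finset.univ.filter (fun l => ¬ m ∣ r * e l), f l = ∏ l : Vis m r e, f l :=
    Finset.prod_subtype _ (fun x => by simp) f
  rw [← h1]
  refine Finset.prod_subset (Finset.subset_univ _) fun l _ hl => hf l fun h => hl ?_
  exact Finset.mem_filter.2 ⟨Finset.mem_univ _, h⟩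

theorem sum_rho_vis {m r : ℕ} {e nd : ι → ℕ} :
    ∑ l : Vis m r e, rho m r e l * nd l = ∑ l, rho m r e l * nd l :=
  sum_vis (fun l => rho m r e l * nd l) fun l hl => by rw [invis l hl, zero_mul]

theorem sum_rho_modEq {m r : ℕ} {e nd : ι → ℕ} :
    ∑ l, rho m r e l * nd l ≡ r * ∑ l, e l * nd l [MOD m] := by
  have : ∀ s : Finset ι, (∑ l ∈ s, rho m r e l * nd l) ≡ ∑ l ∈ s, r * e l * nd l [MOD m] := by
    intro s
    induction s using Finset.induction_on with
    | empty => exact Nat.ModEq.refl _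
    | insert x s hx ih =>
      rw [Finset.sum_insert hx, Finset.sum_insert hx]
      exact Nat.ModEq.add ((Nat.mod_modEq _ _).mul_right _) ih
  have h2 : ∑ l, r * e l * nd l = r * ∑ l, e l * nd l := by
    rw [Finset.mul_sum]
    exact Finset.sum_congr rfl fun l _ => mul_assoc _ _ _
  rw [← h2]
  exact this _

theorem vis_half {m r : ℕ} {e : ι → ℕ} (h : 2 * r = m) (l : Vis m r e) :
    2 * rho m r e l = m := by
  have hl := l.2
  rcases Nat.even_or_odd' (e l) with ⟨c, hc | hc⟩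
  · exfalso
    apply hl
    rw [hc, ← h]
    exact ⟨c, by ring⟩
  · have h2 : rho m r e l = r := by
      unfold rho
      rw [hc, ← h]
      have : r * (2 * c + 1) = r + 2 * r * c := by ring
      rw [this, Nat.add_mul_mod_self_left]
      refine Nat.mod_eq_of_lt ?_
      rcases Nat.eq_zero_or_pos r with h0 | h0
      · exfalso
        apply hl
        have h3 : r * e l = 0 := Nat.mul_eq_zero.2 (Or.inl h0)
        rw [h3]
        exact dvd_zero _
      · omega
    rw [h2, h]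

/-- `c < n` -/
theorem c_lt {κ : Type} [Fintype κ] [DecidableEq κ] {m n c : ℕ} {ρ nd : κ → ℕ} {i₁ i₂ : κ}
    (hne : i₁ ≠ i₂) (hρ : ∀ l, 0 < ρ l ∧ ρ l < m) (hadd : ρ i₁ + ρ i₂ = m) (hn : 2 ≤ n)
    (hN : n + 2 = ∑ l, nd l) (hc : m * (c + 1) = ∑ l, ρ l * nd l) (h1 : 1 ≤ nd i₁)
    (h2 : 1 ≤ nd i₂) : c < n := by
  have hm : 0 < m := (hρ i₁).1.trans (hρ i₁).2
  have h3 : ∀ l, ρ l * nd l + nd l ≤ m * nd l := by
    intro l
    have : (ρ l + 1) * nd l ≤ m * nd l := Nat.mul_le_mul_right _ (hρ l).2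
    rwa [add_mul, one_mul] at this
  -- `∑ (m - 1 - ρ_l) nd_l ≥ (m - 1 - ρ_(i₁)) + (m - 1 - ρ_(i₂)) = m - 2`
  let u : κ → ℕ := fun l => if l = i₁ then m - 1 - ρ i₁ else if l = i₂ then m - 1 - ρ i₂ else 0
  have hu : ∀ l, ρ l * nd l + nd l + u l ≤ m * nd l := by
    intro l
    have hl := hρ l
    have key : 1 ≤ nd l → ρ l * nd l + nd l + (m - 1 - ρ l) ≤ m * nd l := by
      intro h
      obtain ⟨x, hx⟩ := Nat.exists_eq_add_of_le (Nat.succ_le_of_lt hl.2)
      obtain ⟨y, hy⟩ := Nat.exists_eq_add_of_le h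
      have e1 : m - 1 - ρ l = x := by omega
      rw [e1, hx, hy]
      have : (ρ l).succ = ρ l + 1 := rfl
      rw [this]
      nlinarith
    by_cases e1 : l = i₁
    · subst e1
      change ρ l * nd l + nd l + (if l = l then _ else _) ≤ _
      rw [if_pos rfl]
      exact key h1
    · by_cases e2 : l = i₂
      · subst e2
        change ρ l * nd l + nd l + (if l = i₁ then _ else if l = l then _ else _) ≤ _
        rw [if_neg e1, if_pos rfl]
        exact key h2
      · change ρ l * nd l + nd l + (if l = i₁ then _ else if l = i₂ then _ else _) ≤ _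
        rw [if_neg e1, if_neg e2, add_zero]
        exact h3 l
  have hsu : ∑ l, u l = (m - 1 - ρ i₁) + (m - 1 - ρ i₂) := by
    have h3 : ∀ l, u l = (if l = i₁ then (m - 1 - ρ i₁) else 0) +
        (if l = i₂ then (m - 1 - ρ i₂) else 0) := by
      intro l
      change (if l = i₁ then _ else if l = i₂ then _ else _) = _
      by_cases e1 : l = i₁
      · subst e1
        rw [if_pos rfl, if_pos rfl, if_neg hne, add_zero]
      · rw [if_neg e1, if_neg e1, zero_add]
    rw [Finset.sum_congr rfl fun l _ => h3 l, Finset.sum_add_distrib, Finset.sum_ite_eq',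
      Finset.sum_ite_eq', if_pos (Finset.mem_univ _), if_pos (Finset.mem_univ _)]
  have h4 := Finset.sum_le_sum fun l (_ : l ∈ (univ : Finset κ)) => hu l
  rw [Finset.sum_add_distrib, Finset.sum_add_distrib, hsu, ← Finset.mul_sum, ← hN, ← hc] at h4
  have := hρ i₁
  have := hρ i₂
  by_contra hlt
  have h5 : m * (n + 1) ≤ m * (c + 1) := Nat.mul_le_mul_left _ (by omega)
  have h6 : m * (n + 2) = m * (n + 1) + m := by ring
  omega

end nat

section gen

variable {ι : Type} [Fintype ι] [DecidableEq ι]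

theorem prod_vis_dvd {M : Type} [CommMonoid M] (m r : ℕ) (e : ι → ℕ) (f : ι → M) :
    ∏ l : Vis m r e, f l ∣ ∏ l, f l := by
  have h1 : ∏ l ∈ Finset.univ.filter (fun l => ¬ m ∣ r * e l), f l = ∏ l : Vis m r e, f l :=
    Finset.prod_subtype _ (fun x => by simp) f
  rw [← h1]
  exact Finset.prod_dvd_prod_of_subset _ _ _ (Finset.filter_subset _ _)

theorem genG_vis {A : Type} [CommRing A] [IsDomain A] {nd : ι → ℕ} {a : ι → A[X][X]}
    (h : GenG nd a) (m r : ℕ) (e : ι → ℕ) :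
    GenG (fun l : Vis m r e => nd l) (fun l : Vis m r e => a l) := by
  refine ⟨fun l => h.1 l, ?_⟩
  obtain ⟨c, hc⟩ := prod_vis_dvd m r e a
  have h1 := h.2
  rw [hc, Polynomial.map_mul] at h1
  exact h1.of_mul_left

theorem YG_vis {R : Type} [CommRing R] {m r : ℕ} {e : ι → ℕ} (p c d N : ℕ) (a : ι → R[X]) :
    YG p (fun j : Vis m r e => rho m r e j * c) d N (fun j : Vis m r e => a j) =
      YG p (fun j => rho m r e j * c) d N a := by
  ext i l
  rw [YG, Matrix.of_apply, YG, Matrix.of_apply]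
  congr 2
  exact prod_vis (fun j => a j ^ (rho m r e j * c)) fun j hj => by
    rw [invis j hj, zero_mul, pow_zero]

theorem fewAt_vis {A : Type} [CommRing A] {m r : ℕ} {e : ι → ℕ} {d : ℕ} {a : ι → A[X][X]}
    (h : FewAt A m (fun l : Vis m r e => rho m r e l) d (fun l : Vis m r e => a l)) :
    FewAt A m (rho m r e) d a := by
  intro H hH ε hε
  obtain ⟨p₀, a₀, ha₀, h1⟩ := h H hH ε hε
  refine ⟨p₀, a₀, ha₀, ?_⟩
  intro p _ k _ _ φ hp hm ha T hT
  refine h1 p k φ hp hm ha T ?_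
  intro t ht
  have h2 := hT t ht
  have h3 := YG_vis (m := m) (r := r) (e := e) p ((p - 1) / m) d d
    (fun j => (a j).map (mapRingHom φ))
  rw [h3]
  exact h2

end gen

end Pool.Agent.Helper4.IX
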