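import Pool.Agent.Helper4.GX.Pre
import Pool.Agent.Helper62.IX.Stm

/-!
# The core of `I_FewR`
-/

set_option autoImplicit false

open Polynomial Matrix Finset NumberField IsDedekindDomain

namespace Pool.Agent.Helper4.IX

open Pool.Agent.Helper62.BM Pool.Agent.Helper62.BX Pool.Agent.Helper62.CX Pool.Agent.Helper62.GX
  Pool.Agent.Helper90.BM Pool.Agent.Helper4.BM Pool.Agent.Helper4.BX Pool.Agent.Helper4.CX
  Pool.Agent.Helper62.IX Pool.Agent.Helper4.GX
open Pool.Agent.Helper62.BW (dt coeff_dt map_dt sep_clear sep_map map_ne Fam Dat Gen)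
open Pool.Agent.Helper4.BW (map_evalRingHom)

/-- From few zeros over a finitely generated ring to `FewR`. -/
theorem few_coreD (K : Type) [Field K] [NumberField K] (ι : Type) [Fintype ι] [DecidableEq ι]
    (nr m : ℕ) (dd : ℕ → ℕ) (e nd : ι → ℕ) (hm2 : 2 ≤ m)
    (a : ι → (Rp K nr)[X][X]) (φ : (Rp K nr)[X]) (hGen : GenG nd a)
    (hφ : 1 ≤ φ.natDegree)
    (G : ∀ r, MvPolynomial (Fin (dd r) × Fin (dd r)) (Rp K nr)[X])
    (hG0 : ∀ r, G r ≠ 0) (hSpread : X_Spread) (A : Subalgebra (Rp K nr) (Cl K nr)) (hFG : A.FG)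
    (hfewA : ∀ r, 0 < r → r < m → ∀ (H : MvPolynomial (Fin (dd r) ×
      Fin (dd r)) A[X]), H ≠ 0 → ∀ ε : ℝ, 0 < ε → ∃ (p₀ : ℕ) (a₀ : A), a₀ ≠ 0 ∧
      ∀ (p : ℕ) [Fact p.Prime] (k : Type) [Field k] [CharP k p] (φ : A →+* k), p₀ ≤ p →
      m ∣ p - 1 → φ a₀ ≠ 0 → ∀ T : Finset k, (∀ t ∈ T, t ^ p = t ∧
        MvPolynomial.eval₂ ((evalRingHom t).comp (mapRingHom φ))
          (fun s : Fin (dd r) × Fin (dd r) =>
          (YG p (fun j => rho m r e j * ((p - 1) / m)) (dd r)
            (dd r)
            (fun j => ((a j).map (mapRingHom (algebraMap (Rp K nr) A))).map (mapRingHom φ))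
              s.1 s.2).eval t) H = 0) →
        (T.card : ℝ) ≤ ε * p) :
    FewR (fun v => m ∣ Ideal.absNorm v.asIdeal - 1) (GoodDp m dd e a φ G) := by
  classical
  intro ε hε
  have hm0 : 0 < m := by omega
  have hval : Function.Injective (A.val : A →+* (Cl K nr)) := Subtype.val_injective
  have hRL : Function.Injective (algebraMap (Rp K nr) (Cl K nr)) := by
    rw [IsScalarTower.algebraMap_eq (Rp K nr) (FractionRing (Rp K nr)) (Cl K nr)]
    exact (algebraMap (FractionRing (Rp K nr)) (Cl K nr)).injective.comp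
      (IsFractionRing.injective (Rp K nr) _)
  have h1 : Function.Injective (algebraMap (Rp K nr) A) := by
    intro x y hxy
    exact hRL (congrArg (fun z : A => (z : (Cl K nr))) hxy)
  have h2 : Algebra.FiniteType (Rp K nr) A := (Subalgebra.fg_iff_finiteType A).mp hFG
  have hCZ : CharZero A := charZero_of_injective_algebraMap h1
  have hCR := countable_Rp K nr
  have hCt : Countable A := countable_ft (Rp K nr) A
  -- the family over `A`
  set aA : ι → A[X][X] := fun l => (a l).map (mapRingHom (algebraMap (Rp K nr) A)) with haA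
  have hab : ∀ F : (Rp K nr)[X][X], (F.map (mapRingHom (algebraMap (Rp K nr) A))).map
      (mapRingHom (A.val : A →+* (Cl K nr))) =
      F.map (mapRingHom (algebraMap (Rp K nr) (Cl K nr))) := by
    intro F
    rw [Polynomial.map_map, mapRingHom_comp]
    rfl
  have hφ0 : φ ≠ 0 := by
    intro h
    rw [h, natDegree_zero] at hφ
    omega
  have hl0 : φ.leadingCoeff ≠ 0 := leadingCoeff_ne_zero.2 hφ0
  have hGA0 : ∀ r, MvPolynomial.map (mapRingHom (algebraMap (Rp K nr) A)) (G r) ≠ 0 := by
    intro r h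
    apply hG0 r
    apply MvPolynomial.map_injective (mapRingHom (algebraMap (Rp K nr) A)) (map_injective _ h1)
    rw [h, map_zero]
  choose H hH0 hH using fun r => A2 A (dd r) _ (hGA0 r)
  set d := φ.natDegree with hd
  have hdpos : (0 : ℝ) < d := by exact_mod_cast hφ
  have hmpos : (0 : ℝ) < m := by exact_mod_cast hm0
  have hex : ∀ r, ∃ (p₀ : ℕ) (a₀ : A), a₀ ≠ 0 ∧ (0 < r → r < m →
      ∀ (p : ℕ) [Fact p.Prime] (k : Type) [Field k] [CharP k p] (φ : A →+* k), p₀ ≤ p →
      m ∣ p - 1 → φ a₀ ≠ 0 → ∀ T : Finset k, (∀ t ∈ T, t ^ p = t ∧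
        MvPolynomial.eval₂ ((evalRingHom t).comp (mapRingHom φ))
          (fun s : Fin (dd r) × Fin (dd r) =>
          (YG p (fun j => rho m r e j * ((p - 1) / m)) (dd r) (dd r)
            (fun j => (aA j).map (mapRingHom φ)) s.1 s.2).eval t) (H r) = 0) →
        (T.card : ℝ) ≤ ε / (2 * d * m) * p) := by
    intro r
    by_cases hr : 0 < r ∧ r < m
    · obtain ⟨p₀, a₀, ha₀, h⟩ := hfewA r hr.1 hr.2 (H r) (hH0 r) (ε / (2 * d * m)) (by positivity)
      exact ⟨p₀, a₀, ha₀, fun _ _ => h⟩
    · exact ⟨0, 1, one_ne_zero, fun h4 h5 => absurd ⟨h4, h5⟩ hr⟩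
  choose p₀ a₀ ha₀ hfew using hex
  have hpa : ∏ r ∈ range m, a₀ r ≠ 0 := Finset.prod_ne_zero_iff.2 fun r _ => ha₀ r
  -- the discriminant
  obtain ⟨u, w, dsc, hdsc, huw⟩ := sep_clear (∏ l, a l) hGen.2
  have hdl : dsc.leadingCoeff ≠ 0 := leadingCoeff_ne_zero.2 hdsc
  obtain ⟨c₀, hc₀, hsp⟩ := hSpread (Rp K nr) A h1 h2 (∏ r ∈ range m, a₀ r) hpa
  refine ⟨c₀ * φ.leadingCoeff * dsc.leadingCoeff, mul_ne_zero (mul_ne_zero hc₀ hl0) hdl, ?_⟩
  obtain ⟨N', hN'⟩ := exists_nat_gt (2 * dsc.natDegree * d / ε : ℝ)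
  have hmK : (m : 𝓞 K) ≠ 0 := by
    rw [Ne, Nat.cast_eq_zero]
    omega
  refine (((finite_mem (K := K) (m : 𝓞 K) hmK).union
    (finite_le (K := K) (∑ r ∈ range m, p₀ r))).union (finite_le (K := K) N')).subset ?_
  rintro v ⟨hv, hvm, s, hsc, hv'⟩
  by_contra hno
  simp only [Set.mem_union, Set.mem_ofPred_eq, not_or, not_le] at hno
  obtain ⟨⟨hmv, hp0⟩, hpN⟩ := hno
  rw [lt_iff_not_ge] at hv'
  apply hv'
  set p := Ideal.absNorm v.asIdeal with hp
  have hFp : Fact p.Prime := ⟨hv⟩
  have hcharκ := charP_res v hv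
  rw [← hp] at hcharκ
  set κ := v.asIdeal.ResidueField with hκ
  set ψ : (Rp K nr) →+* κ := (algebraMap (𝓞 K) κ).comp (evs s) with hψ
  have hψs : Function.Surjective ψ := by
    have hmax : v.asIdeal.IsMaximal := v.isMaximal
    have k1 : Function.Surjective (algebraMap (𝓞 K) κ) :=
      v.asIdeal.algebraMap_residueField_surjective
    refine k1.comp ?_
    intro x
    exact ⟨MvPolynomial.C x, MvPolynomial.eval_C x⟩
  have hψe : ∀ x : (Rp K nr), ψ x = algebraMap (𝓞 K) κ (evs s x) := fun x => rfl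
  have hψc : ψ (c₀ * φ.leadingCoeff * dsc.leadingCoeff) ≠ 0 := by
    rw [hψe, Ne, Ideal.algebraMap_residueField_eq_zero]
    exact hsc
  rw [map_mul, map_mul] at hψc
  have hψ1 : ψ c₀ ≠ 0 := left_ne_zero_of_mul (left_ne_zero_of_mul hψc)
  have hψ2 : ψ φ.leadingCoeff ≠ 0 := right_ne_zero_of_mul (left_ne_zero_of_mul hψc)
  have hψ3 : ψ dsc.leadingCoeff ≠ 0 := right_ne_zero_of_mul hψc
  obtain ⟨k, hk, χ, ι', hcomp, hχ⟩ := hsp κ ψ hψs hψ1
  have hcn := card_res v
  rw [← hp] at hcn
  have hchar : CharP k p := charP_of_injective_ringHom ι'.injective p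
  have hfinite : Finite κ := Nat.finite_of_card_ne_zero (by rw [hcn]; exact hv.ne_zero)
  have : Fintype κ := Fintype.ofFinite _
  rw [Nat.card_eq_fintype_card] at hcn
  have hpow : ∀ t : κ, t ^ p = t := fun t => by
    rw [← hcn]
    exact FiniteField.pow_card t
  have hχ1 : ∀ r, r < m → χ (a₀ r) ≠ 0 := fun r hr h => hχ (by
    rw [map_prod, Finset.prod_eq_zero (Finset.mem_range.2 hr) h])
  set aκ : ι → κ[X][X] := fun l => (a l).map (mapRingHom ψ) with haκ
  set ak : ι → k[X][X] := fun l => (aA l).map (mapRingHom χ) with hak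
  have hakk : ∀ l, (aκ l).map (mapRingHom ι') = ak l := by
    intro l
    rw [haκ, hak, haA]
    simp only
    rw [Polynomial.map_map, Polynomial.map_map, mapRingHom_comp, mapRingHom_comp, hcomp]
  set dκ : κ[X] := dsc.map ψ with hdκ
  have hdκ0 : dκ ≠ 0 := map_ne ψ dsc hψ3
  -- the bad members
  set φs : (𝓞 K)[X] := φ.map (evs s) with hφs
  have hφψ : φs.map (algebraMap (𝓞 K) κ) = φ.map ψ := by
    rw [hφs, Polynomial.map_map]
  have hsκ : ∀ F : (Rp K nr)[X][X], (F.map (mapRingHom (evs s))).map
      (mapRingHom (algebraMap (𝓞 K) κ)) = F.map (mapRingHom ψ) := by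
    intro F
    rw [Polynomial.map_map, mapRingHom_comp]
  set rr : ℕ → κ := fun t => algebraMap (𝓞 K) κ (φs.eval (t : 𝓞 K)) with hrr
  obtain ⟨Z1, hZ1⟩ : ∃ Z1 : Finset κ, Z1 = dκ.roots.toFinset := ⟨_, rfl⟩
  obtain ⟨Z2, hZ2⟩ : ∃ Z2 : ℕ → Finset κ, ∀ r, Z2 r =
    univ.filter (fun s => MvPolynomial.eval₂ ((evalRingHom (ι' s)).comp (mapRingHom χ))
      (fun u : Fin (dd r) × Fin (dd r) =>
        (YG p (fun j => rho m r e j * ((p - 1) / m)) (dd r) (dd r)
            ak u.1 u.2).eval (ι' s)) (H r) = 0) :=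
    ⟨_, fun r => rfl⟩
  set Z : Finset κ := Z1 ∪ ((range m).filter (fun r => 0 < r)).biUnion Z2 with hZ
  have hZcard : (Z.card : ℝ) ≤ dsc.natDegree + ε / (2 * d) * p := by
    have e1 : Z1.card ≤ dsc.natDegree := by
      rw [hZ1]
      exact (Multiset.toFinset_card_le _).trans ((card_roots' _).trans natDegree_map_le)
    have e3 : ∀ r ∈ (range m).filter (fun r => 0 < r), ((Z2 r).card : ℝ) ≤
        ε / (2 * d * m) * p := by
      intro r hr
      rw [Finset.mem_filter, Finset.mem_range] at hr
      have hpr : p₀ r ≤ p := (Finset.single_le_sum (f := p₀) (fun _ _ => Nat.zero_le _)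
        (Finset.mem_range.2 hr.1)).trans hp0.le
      have e5 := hfew r hr.2 hr.1 p k χ hpr hvm (hχ1 r hr.1) ((Z2 r).image ι') (by
        intro t ht
        obtain ⟨s, hs, rfl⟩ := Finset.mem_image.1 ht
        rw [hZ2, Finset.mem_filter] at hs
        exact ⟨by rw [← map_pow, hpow], hs.2⟩)
      rw [Finset.card_image_of_injective _ ι'.injective] at e5
      exact e5
    have e4 : (Z.card : ℝ) ≤ (Z1.card : ℝ) +
        ∑ r ∈ (range m).filter (fun r => 0 < r), ((Z2 r).card : ℝ) := by
      have e6 := Finset.card_union_le Z1 (((range m).filter (fun r => 0 < r)).biUnion Z2)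
      have e7 : (((range m).filter (fun r => 0 < r)).biUnion Z2).card ≤
        ∑ r ∈ (range m).filter (fun r => 0 < r), (Z2 r).card := Finset.card_biUnion_le
      exact_mod_cast e6.trans (Nat.add_le_add_left e7 _)
    have e8 : ∑ r ∈ (range m).filter (fun r => 0 < r), ((Z2 r).card : ℝ) ≤
        ε / (2 * d) * p := by
      refine (Finset.sum_le_card_nsmul _ _ _ e3).trans ?_
      rw [nsmul_eq_mul]
      have e9 : (((range m).filter (fun r => 0 < r)).card : ℝ) ≤ m := by
        have := Finset.card_filter_le (range m) (fun r => 0 < r)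
        rw [Finset.card_range] at this
        exact_mod_cast this
      calc (((range m).filter (fun r => 0 < r)).card : ℝ) * (ε / (2 * d * m) * p)
          ≤ m * (ε / (2 * d * m) * p) := mul_le_mul_of_nonneg_right e9 (by positivity)
        _ = ε / (2 * d) * p := by field_simp
    refine e4.trans (add_le_add ?_ e8)
    exact_mod_cast e1
  have hbad : ∀ t : ℕ, ¬ GoodDp m dd e a φ G v s t → rr t ∈ Z := by
    intro t ht
    by_contra hcon
    apply ht
    rw [hZ, Finset.mem_union, hZ1, Multiset.mem_toFinset, not_or, mem_roots hdκ0,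
      IsRoot.def] at hcon
    have hc1 : dκ.eval (rr t) ≠ 0 := hcon.1
    have hc2 : ∀ r, 0 < r → r < m →
        MvPolynomial.eval₂ ((evalRingHom (ι' (rr t))).comp (mapRingHom χ))
      (fun u : Fin (dd r) × Fin (dd r) =>
        (YG p (fun j => rho m r e j * ((p - 1) / m)) (dd r) (dd r)
            ak u.1 u.2).eval (ι' (rr t))) (H r) ≠ 0 := by
      intro r hr hrm h
      apply hcon.2
      rw [Finset.mem_biUnion]
      refine ⟨r, Finset.mem_filter.2 ⟨Finset.mem_range.2 hrm, hr⟩, ?_⟩
      rw [hZ2, Finset.mem_filter]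
      exact ⟨Finset.mem_univ _, h⟩
    have hrd : ∀ F : (Rp K nr)[X][X],
        rd v (memC (F.map (mapRingHom (evs s))) (φs.eval (t : 𝓞 K))) =
          (F.map (mapRingHom ψ)).map (evalRingHom (rr t)) := by
      intro F
      unfold rd memC
      rw [map_evalRingHom, hsκ]
    have hrk : ∀ F : (Rp K nr)[X][X],
        (rd v (memC (F.map (mapRingHom (evs s))) (φs.eval (t : 𝓞 K)))).map ι' =
          ((F.map (mapRingHom ψ)).map (mapRingHom ι')).map (evalRingHom (ι' (rr t))) := by
      intro F
      rw [hrd, map_evalRingHom]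
    refine ⟨hmv, ?_, ?_⟩
    · show (rd v (∏ l, memC ((a l).map (mapRingHom (evs s))) (φs.eval (t : 𝓞 K)))).Separable
      have k1 := sep_map ((evalRingHom (rr t)).comp (mapRingHom ψ)) (∏ l, a l) u w dsc huw
        (by
          rw [RingHom.comp_apply, coe_mapRingHom, coe_evalRingHom]
          exact hc1)
      have k2 : rd v (∏ l, memC ((a l).map (mapRingHom (evs s))) (φs.eval (t : 𝓞 K))) =
        (∏ l, a l).map ((evalRingHom (rr t)).comp (mapRingHom ψ)) := by
        rw [Polynomial.map_prod]
        have k3 : rd v (∏ l, memC ((a l).map (mapRingHom (evs s))) (φs.eval (t : 𝓞 K))) =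
          ∏ l, rd v (memC ((a l).map (mapRingHom (evs s))) (φs.eval (t : 𝓞 K))) := by
          unfold rd
          rw [Polynomial.map_prod]
        rw [k3]
        refine Finset.prod_congr rfl fun l _ => ?_
        rw [hrd, Polynomial.map_map]
      rw [k2]
      exact k1
    · intro r hr hrm
      -- the matrix
      have hW : ∀ i j : Fin (dd r),
          ι' (YG p (fun j => rho m r e j * ((p - 1) / m)) (dd r)
            (dd r)
            (fun l => rd v (memC ((a l).map (mapRingHom (evs s))) (φs.eval (t : 𝓞 K)))) i j) =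
          (YG p (fun j => rho m r e j * ((p - 1) / m)) (dd r)
            (dd r) ak i j).eval (ι' (rr t)) := by
        intro i j
        have e1 := congrFun (congrFun (map_YG (p := p) (q := fun j => rho m r e j * ((p - 1) / m))
          (d := dd r) (N := dd r) ι'
          (fun l => rd v (memC ((a l).map (mapRingHom (evs s))) (φs.eval (t : 𝓞 K))))) i) j
        have e2 := congrFun (congrFun (map_YG (p := p) (q := fun j => rho m r e j * ((p - 1) / m))
          (d := dd r) (N := dd r)
          (evalRingHom (ι' (rr t))) ak) i) j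
        rw [Matrix.map_apply] at e1 e2
        rw [e1]
        rw [coe_evalRingHom] at e2
        rw [e2]
        congr 2
        funext l
        rw [hrk, ← hakk l]
      have hnot := fun h => hc2 r hr hrm
        (hH r k ((evalRingHom (ι' (rr t))).comp (mapRingHom χ)) (fun u =>
        (YG p (fun j => rho m r e j * ((p - 1) / m)) (dd r) (dd r)
            ak u.1 u.2).eval (ι' (rr t))) h)
      rw [imp_false, not_or, not_or] at hnot
      obtain ⟨hn1, hn2, -⟩ := hnot
      constructor
      · intro hdet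
        apply hn1
        have hdet' := congrArg ι' hdet
        rw [map_zero, RingHom.map_det] at hdet'
        rw [← hdet']
        congr 1
        ext i j
        rw [Matrix.of_apply, RingHom.mapMatrix_apply, Matrix.map_apply]
        exact (hW i j).symm
      · intro hav
        apply hn2
        have h5 : ∀ W : Fin (dd r) × Fin (dd r) → k,
            MvPolynomial.eval₂ ((evalRingHom (ι' (rr t))).comp (mapRingHom χ)) W
              (MvPolynomial.map (mapRingHom (algebraMap (Rp K nr) A)) (G r)) =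
            MvPolynomial.eval₂ (ι'.comp ((algebraMap (𝓞 K) κ).comp
              (evalRingHom (φs.eval (t : 𝓞 K))))) W
              (MvPolynomial.map (mapRingHom (evs s)) (G r)) := by
          intro W
          rw [MvPolynomial.eval₂_map, MvPolynomial.eval₂_map]
          congr 1
          refine Polynomial.ringHom_ext (fun x => ?_) ?_
          · simp only [RingHom.comp_apply, coe_mapRingHom, map_C, coe_evalRingHom, eval_C]
            exact (RingHom.congr_fun hcomp x)
          · simp only [RingHom.comp_apply, coe_mapRingHom, map_X, coe_evalRingHom, eval_X]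
            rfl
        have h6 := congrArg ι' hav
        rw [map_zero, MvPolynomial.eval₂_comp_left] at h6
        rw [h5, ← h6]
        congr 1
        funext u
        exact (hW u.1 u.2).symm
  have hfib : ∀ s' : κ, (((range p).filter fun t : ℕ =>
      ¬ GoodDp m dd e a φ G v s t).filter (fun t => rr t = s')).card ≤ d := by
    intro s'
    have hdegφ : (φ.map ψ).natDegree = d := natDegree_map_of_leadingCoeff_ne_zero _ hψ2
    have hne : φ.map ψ - C s' ≠ 0 := by
      intro h
      rw [sub_eq_zero] at h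
      rw [h, natDegree_C] at hdegφ
      omega
    have hdeg2 : (φ.map ψ - C s').natDegree ≤ d := by
      rw [natDegree_sub_C, hdegφ]
    have hinjOn : Set.InjOn (fun t : ℕ => (t : κ)) (range p : Set ℕ) := by
      intro x hx y hy hxy
      rw [Finset.coe_range, Set.mem_Iio] at hx hy
      have := (CharP.natCast_eq_natCast κ p).1 hxy
      rw [Nat.ModEq, Nat.mod_eq_of_lt hx, Nat.mod_eq_of_lt hy] at this
      exact this
    have hsub : (((range p).filter fun t : ℕ =>
        ¬ GoodDp m dd e a φ G v s t).filter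
        (fun t => rr t = s')).image (fun t : ℕ => (t : κ)) ⊆ (φ.map ψ - C s').roots.toFinset := by
      intro x hx
      obtain ⟨t, ht, rfl⟩ := Finset.mem_image.1 hx
      have hts := (Finset.mem_filter.1 ht).2
      rw [Multiset.mem_toFinset, mem_roots hne, IsRoot.def, eval_sub, eval_C, sub_eq_zero,
        ← hts, hrr]
      simp only
      rw [← Polynomial.eval₂_at_apply, Polynomial.eval₂_eq_eval_map, map_natCast, hφψ]
    calc _ = ((((range p).filter fun t : ℕ =>
        ¬ GoodDp m dd e a φ G v s t).filter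
        (fun t => rr t = s')).image (fun t : ℕ => (t : κ))).card := by
          rw [Finset.card_image_of_injOn]
          refine hinjOn.mono ?_
          intro t ht
          exact Finset.mem_coe.2 (Finset.mem_filter.1 (Finset.mem_filter.1
            (Finset.mem_coe.1 ht)).1).1
      _ ≤ (φ.map ψ - C s').roots.toFinset.card := Finset.card_le_card hsub
      _ ≤ (φ.map ψ - C s').roots.card := Multiset.toFinset_card_le _
      _ ≤ (φ.map ψ - C s').natDegree := card_roots' _
      _ ≤ d := hdeg2
  have hcount : ((range p).filter fun t : ℕ => ¬ GoodDp m dd e a φ G v s t).card ≤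
      d * Z.card := by
    refine (Finset.card_le_mul_card_image (f := rr) _ d (fun s _ => hfib s)).trans ?_
    refine Nat.mul_le_mul_left _ (Finset.card_le_card ?_)
    intro s hs
    obtain ⟨t, ht, rfl⟩ := Finset.mem_image.1 hs
    exact hbad t (Finset.mem_filter.1 ht).2
  have hcount' : ((((range p).filter fun t : ℕ =>
      ¬ GoodDp m dd e a φ G v s t).card : ℕ) : ℝ) ≤ d * Z.card := by
    exact_mod_cast hcount
  refine hcount'.trans ?_
  have hpN' : (N' : ℝ) < p := by exact_mod_cast hpN
  have h6 : 2 * dsc.natDegree * d / ε < p := hN'.trans hpN'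
  rw [div_lt_iff₀ hε] at h6
  calc (d : ℝ) * Z.card ≤ d * (dsc.natDegree + ε / (2 * d) * p) :=
        mul_le_mul_of_nonneg_left hZcard hdpos.le
    _ = dsc.natDegree * d + ε * p / 2 := by field_simp
    _ ≤ ε * p := by linarith





end Pool.Agent.Helper4.IX
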