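import Pool.Agent.Helper4.IX.Two
import Pool.Agent.Helper4.GX.FewR

/-!
# `I_FewR`, `J_FewR`
-/

set_option autoImplicit false
set_option linter.unusedSectionVars false

open Polynomial Matrix Finset NumberField IsDedekindDomain

namespace Pool.Agent.Helper4.IX

open Pool.Agent.Helper62.BM Pool.Agent.Helper62.BX Pool.Agent.Helper62.CX Pool.Agent.Helper62.GX
  Pool.Agent.Helper90.BM Pool.Agent.Helper4.BM Pool.Agent.Helper4.BX Pool.Agent.Helper4.CX
  Pool.Agent.Helper62.IX Pool.Agent.Helper62.JX Pool.Agent.Helper62.HX Pool.Agent.Helper4.GX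
open Pool.Agent.Helper62.BW (dt coeff_dt map_dt sep_clear sep_map map_ne Fam Dat Gen)
open Pool.Agent.Helper62.VX (Node1)
open Pool.Agent.Helper4.BW (map_evalRingHom)

/-- a finitely generated ring for all `r` -/
theorem exists_sub {R L : Type} [CommRing R] [Field L] [Algebra R L] (m : ℕ)
    (P : ℕ → Subalgebra R L → Prop)
    (h : ∀ r, 0 < r → r < m → ∃ S : Finset L, ∀ A : Subalgebra R L, A.FG → (∀ y ∈ S, y ∈ A) →
      P r A) : ∃ A : Subalgebra R L, A.FG ∧ ∀ r, 0 < r → r < m → P r A := by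
  classical
  have h' : ∀ r, ∃ S : Finset L, 0 < r → r < m → ∀ A : Subalgebra R L, A.FG →
      (∀ y ∈ S, y ∈ A) → P r A := by
    intro r
    by_cases hr : 0 < r ∧ r < m
    · obtain ⟨S, hS⟩ := h r hr.1 hr.2
      exact ⟨S, fun _ _ => hS⟩
    · exact ⟨∅, fun h1 h2 => absurd ⟨h1, h2⟩ hr⟩
  choose S hS using h'
  refine ⟨Algebra.adjoin R (((range m).biUnion S : Finset L) : Set L), ⟨_, rfl⟩, ?_⟩
  intro r hr hrm
  refine hS r hr hrm _ ⟨_, rfl⟩ fun y hy => Algebra.subset_adjoin ?_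
  exact Finset.mem_coe.2 (Finset.mem_biUnion.2 ⟨r, Finset.mem_range.2 hrm, hy⟩)

/-- `I_FewR`. -/
theorem i_FewR (hData : G_Data) (hHalf : G_Half) (hFewA : G_FewA) (hDataI : I_Data)
    (hDataE : H_Data) (hFewI : I_FewA) (hRoot : I_Root) (hSpread : X_Spread) : I_FewR := by
  intro K _ _ ι _ _ nr m e nd hm2 a φ hGen hBig hφ G hG0
  obtain ⟨A, hFG, hA⟩ := exists_sub m (fun r (A : Subalgebra (Rp K nr) (Cl K nr)) =>
    FewAt A m (rho m r e) (dI m e nd r)
      (fun l => (a l).map (mapRingHom (algebraMap (Rp K nr) A)))) fun r hr hrm => by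
    by_cases h : m ∣ r * ∑ l, e l * nd l
    · exact case2 K hDataI hDataE hFewI hRoot nr m r e nd hm2 a hGen
        ((hBig r hr hrm).2 h)
    · exact case1 K hData hHalf hFewA nr m r e nd hm2 a hGen h ((hBig r hr hrm).1 h)
  exact few_coreD K ι nr m (dI m e nd) e nd hm2 a φ hGen hφ G hG0 hSpread A hFG
    fun r hr hrm => hA r hr hrm

/-- `J_FewR`. -/
theorem j_FewR (hData : G_Data) (hHalf : G_Half) (hFewA : G_FewA) (hSpread : X_Spread) :
    J_FewR := by
  intro K _ _ ι _ _ nr m e nd hm2 hco a φ hGen hBig hφ G hG0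
  have hmod : ∀ r, 0 < r → r < m → ¬ m ∣ r * ∑ l, e l * nd l := by
    intro r hr hrm h
    exact absurd (Nat.le_of_dvd hr (hco.symm.dvd_of_dvd_mul_right h)) (by omega)
  obtain ⟨A, hFG, hA⟩ := exists_sub m (fun r (A : Subalgebra (Rp K nr) (Cl K nr)) =>
    FewAt A m (rho m r e) (dG m (rho m r e) nd)
      (fun l => (a l).map (mapRingHom (algebraMap (Rp K nr) A)))) fun r hr hrm => by
    have h1 : dI m e nd r = dG m (rho m r e) nd := by
      unfold dI dG
      refine sub_one_div (by omega) fun h => hmod r hr hrm ?_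
      exact Nat.modEq_zero_iff_dvd.1 (sum_rho_modEq.symm.trans (Nat.modEq_zero_iff_dvd.2 h))
    rw [← h1]
    obtain ⟨N, h2, h3, ⟨i, j, t₀, x₀, a₁, hij, hN⟩, h4, h5⟩ := hBig r hr hrm
    exact case1 K hData hHalf hFewA nr m r e nd hm2 a hGen (hmod r hr hrm)
      ⟨N, h2, h3, ⟨i, j, t₀, x₀, a₁, hij.mul_left r, hN⟩, h4, h5⟩
  exact few_coreG K ι nr m e nd hm2 a φ hGen hφ G hG0 hSpread A hFG
    fun r hr hrm => hA r hr hrm

end Pool.Agent.Helper4.IX
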