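import Pool.Agent.Helper4.IX.Cases

/-!
# The nodes; the first case
-/

set_option autoImplicit false
set_option linter.unusedSectionVars false

open Polynomial Matrix Finset NumberField IsDedekindDomain

namespace Pool.Agent.Helper4.IX

open Pool.Agent.Helper62.BM Pool.Agent.Helper62.BX Pool.Agent.Helper62.CX Pool.Agent.Helper62.GX
  Pool.Agent.Helper90.BM Pool.Agent.Helper4.BM Pool.Agent.Helper4.BX Pool.Agent.Helper4.CX
  Pool.Agent.Helper62.IX Pool.Agent.Helper62.JX Pool.Agent.Helper62.HX Pool.Agent.Helper4.GX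
open Pool.Agent.Helper62.BW (dt coeff_dt map_dt sep_clear sep_map map_ne Fam Dat Gen)
open Pool.Agent.Helper62.VX (Node1)
open Pool.Agent.Helper4.BW (map_evalRingHom)

section ring

variable {κ : Type} [Fintype κ] [DecidableEq κ]

theorem node_sub {R L : Type} [CommRing R] [IsDomain R] [Field L] [Algebra R L] (i₁ i₂ : κ)
    (a : κ → R[X][X]) (t₀ x₀ : L) (a₁ : κ → L[X])
    (hN : NodeG i₁ i₂ (fun l => (a l).map (mapRingHom (algebraMap R L))) t₀ x₀ a₁)
    (A : Subalgebra R L) (ht : t₀ ∈ A) (hx : x₀ ∈ A) (hfa : ∀ l n, (a₁ l).coeff n ∈ A) :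
    ∃ (t x : A) (a' : κ → A[X]),
      NodeG i₁ i₂ (fun l => (a l).map (mapRingHom (algebraMap R A))) t x a' := by
  classical
  set ψ : A →+* L := (A.val : A →+* L) with hψ
  have hval : Function.Injective ψ := Subtype.val_injective
  have hex : ∀ l, ∃ f : A[X], f.map ψ = a₁ l := by
    intro l
    have h1 : a₁ l ∈ Polynomial.lifts ψ := (Polynomial.lifts_iff_coeff_lifts (a₁ l)).2 fun n =>
      ⟨⟨(a₁ l).coeff n, hfa l n⟩, rfl⟩
    exact (Polynomial.mem_lifts _).1 h1
  choose a' haa using hex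
  have hFF : ∀ F : R[X][X], (F.map (mapRingHom (algebraMap R A))).map (mapRingHom ψ) =
      F.map (mapRingHom (algebraMap R L)) := by
    intro F
    rw [Polynomial.map_map, mapRingHom_comp]
    rfl
  have hprod : (∏ l, a' l).map ψ = ∏ l, a₁ l := by
    rw [Polynomial.map_prod]
    exact Finset.prod_congr rfl fun l _ => haa l
  obtain ⟨k0, k1, k3, k4⟩ := hN
  refine ⟨⟨t₀, ht⟩, ⟨x₀, hx⟩, a', k0, fun l => ?_, ?_, ?_⟩
  · apply Polynomial.map_injective ψ hval
    rw [map_evalRingHom, hFF]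
    have h2 := k1 l
    by_cases hl : l = i₁ ∨ l = i₂
    · rw [if_pos hl] at h2 ⊢
      rw [Polynomial.map_mul, Polynomial.map_sub, Polynomial.map_X, Polynomial.map_C, haa]
      exact h2
    · rw [if_neg hl] at h2 ⊢
      rw [haa]
      exact h2
  · have h1 : (∏ l, a₁ l).Separable := (separable_map _).1 k3
    rw [← hprod] at h1
    set L' : FractionRing A →+* L := IsFractionRing.lift (K := FractionRing A) hval with hL
    have h3 : L'.comp (algebraMap A (FractionRing A)) = ψ := by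
      ext x
      rw [RingHom.comp_apply, hL, IsFractionRing.lift_algebraMap]
    rw [← separable_map L', Polynomial.map_map, h3]
    exact h1
  · intro h
    apply k4
    have h1 := congrArg ψ h
    rw [map_zero, ← Polynomial.eval_map_apply, hprod] at h1
    exact h1

/-- the elements needed for a node -/
noncomputable def nodeS {L : Type} [Field L] [DecidableEq L] (t₀ x₀ : L) (a₁ : κ → L[X]) : Finset L :=
  {t₀, x₀} ∪ univ.biUnion (fun l => (a₁ l).coeffs)

theorem nodeS_mem {R L : Type} [CommRing R] [Field L] [DecidableEq L] [Algebra R L] {t₀ x₀ : L}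
    {a₁ : κ → L[X]} {A : Subalgebra R L} (h : ∀ y ∈ nodeS t₀ x₀ a₁, y ∈ A) :
    t₀ ∈ A ∧ x₀ ∈ A ∧ ∀ l n, (a₁ l).coeff n ∈ A := by
  refine ⟨h _ (by unfold nodeS; simp), h _ (by unfold nodeS; simp), fun l n => ?_⟩
  by_cases h0 : (a₁ l).coeff n = 0
  · rw [h0]; exact A.zero_mem
  · exact h _ (by
      unfold nodeS
      exact Finset.mem_union_right _ (Finset.mem_biUnion.2 ⟨l, Finset.mem_univ _,
        coeff_mem_coeffs h0⟩))

/-- the node of the product -/
theorem node1_of {A : Type} [CommRing A] {i₁ i₂ : κ} {a : κ → A[X][X]} {t₀ x₀ : A}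
    {a₁ : κ → A[X]} (hNd : NodeG i₁ i₂ a t₀ x₀ a₁) : Node1 (∏ l, a l) t₀ x₀ (∏ l, a₁ l) := by
  refine ⟨?_, hNd.2.2.1, hNd.2.2.2⟩
  rw [Polynomial.map_prod]
  have h1 : ∀ l, (a l).map (evalRingHom t₀) =
      (X - Polynomial.C x₀) ^ (if l = i₁ ∨ l = i₂ then 1 else 0 : ℕ) * a₁ l := by
    intro l
    rw [hNd.2.1 l]
    split_ifs
    · rw [pow_one]
    · rw [pow_zero, one_mul]
  rw [Finset.prod_congr rfl fun l _ => h1 l, Finset.prod_mul_distrib, Finset.prod_pow_eq_pow_sum,
    Pool.Agent.Helper38.GX.sum_ind hNd.1]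

end ring

theorem sub_one_div {s m : ℕ} (hm : 0 < m) (h : ¬ m ∣ s) : (s - 1) / m = s / m := by
  have h1 := Nat.div_add_mod s m
  have h2 : 0 < s % m := Nat.pos_of_ne_zero fun h3 => h (Nat.dvd_of_mod_eq_zero h3)
  have h3 := Nat.mod_lt s hm
  have h4 : s - 1 = (s % m - 1) + m * (s / m) := by omega
  rw [h4, Nat.add_mul_div_left _ _ hm, Nat.div_eq_of_lt (by omega), zero_add]

section cases

variable (K : Type) [Field K] [NumberField K] {ι : Type} [Fintype ι] [DecidableEq ι]

theorem alg_inj (nr : ℕ) : Function.Injective (algebraMap (Rp K nr) (Cl K nr)) := by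
  rw [IsScalarTower.algebraMap_eq (Rp K nr) (FractionRing (Rp K nr)) (Cl K nr)]
  exact (algebraMap (FractionRing (Rp K nr)) (Cl K nr)).injective.comp
    (IsFractionRing.injective (Rp K nr) _)

theorem case1 (hData : G_Data) (hHalf : G_Half) (hFewA : G_FewA) (nr m r : ℕ) (e nd : ι → ℕ)
    (hm2 : 2 ≤ m) (a : ι → (Rp K nr)[X][X]) (hGen : GenG nd a)
    (hco : ¬ m ∣ r * ∑ l, e l * nd l) (hBig : BigR (Cl K nr) m r e nd
      (fun l => (a l).map (mapRingHom (algebraMap (Rp K nr) (Cl K nr))))) :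
    ∃ S : Finset (Cl K nr), ∀ A : Subalgebra (Rp K nr) (Cl K nr), A.FG → (∀ y ∈ S, y ∈ A) →
      FewAt A m (rho m r e) (dI m e nd r)
        (fun l => (a l).map (mapRingHom (algebraMap (Rp K nr) A))) := by
  classical
  obtain ⟨N, hN2, hNn, ⟨i, j, t₀, x₀, a₁, hij, hNode⟩, hIrr, hBil⟩ := hBig
  refine ⟨nodeS t₀ x₀ a₁, fun A hFG hS => ?_⟩
  obtain ⟨ht, hx, hc⟩ := nodeS_mem hS
  have hNode' : NodeG i j (fun l : Vis m r e => ((fun l : Vis m r e => a l) l).map
      (mapRingHom (algebraMap (Rp K nr) (Cl K nr)))) t₀ x₀ a₁ := hNode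
  obtain ⟨tA, xA, aA', hNA⟩ := node_sub i j (fun l : Vis m r e => a l) t₀ x₀ a₁ hNode' A ht hx hc
  have hm0 : 0 < m := by omega
  have hval : Function.Injective (A.val : A →+* (Cl K nr)) := Subtype.val_injective
  have h1 : Function.Injective (algebraMap (Rp K nr) A) := by
    intro x y hxy
    exact alg_inj K nr (congrArg (fun z : A => (z : (Cl K nr))) hxy)
  have h2 : Algebra.FiniteType (Rp K nr) A := (Subalgebra.fg_iff_finiteType A).mp hFG
  have hCZ : CharZero A := charZero_of_injective_algebraMap h1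
  have hCR := countable_Rp K nr
  have hCt : Countable A := countable_ft (Rp K nr) A
  have hGenA := genG_vis (genG_map (algebraMap (Rp K nr) A) h1 hGen) m r e
  have hab : ∀ F : (Rp K nr)[X][X], (F.map (mapRingHom (algebraMap (Rp K nr) A))).map
      (mapRingHom (A.val : A →+* (Cl K nr))) =
      F.map (mapRingHom (algebraMap (Rp K nr) (Cl K nr))) := by
    intro F
    rw [Polynomial.map_map, mapRingHom_comp]
    rfl
  have hρ : ∀ l : Vis m r e, 0 < rho m r e l ∧ rho m r e l < m := vis_pos hm0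
  have hρ2 := vis_add hm0 i j hij
  have hnd1 := nd_pos hGenA hNA i (Or.inl rfl)
  have hnd2 := nd_pos hGenA hNA j (Or.inr rfl)
  have hmod : ¬ m ∣ ∑ l : ι, rho m r e l * nd l := fun h =>
    hco (Nat.modEq_zero_iff_dvd.1 (sum_rho_modEq.symm.trans (Nat.modEq_zero_iff_dvd.2 h)))
  have hmod' : ¬ m ∣ ∑ l : Vis m r e, rho m r e l * nd l := by
    rw [sum_rho_vis]
    exact hmod
  have hd : dI m e nd r = dG m (fun l : Vis m r e => rho m r e l) (fun l : Vis m r e => nd l) := by
    unfold dI dG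
    rw [sum_rho_vis]
    exact sub_one_div hm0 hmod
  apply fewAt_vis
  rw [hd]
  refine hFewA (Vis m r e) m N (fun l => rho m r e l) (fun l => nd l) hρ hmod' hN2
    (dG_lt hNode.1 hρ hρ2 hN2 hNn hnd1 hnd2) hNn A (Cl K nr) (A.val : A →+* (Cl K nr)) hval
    (fun l => (a l).map (mapRingHom (algebraMap (Rp K nr) A)))
    (hData (Vis m r e) A m N _ _ i j hρ hρ2 hN2 hNn _ hGenA tA xA aA' hNA)
    (fun g _ hg => hHalf (Vis m r e) A g _ i j (by omega) (by omega) _ hGenA tA xA aA' hNA) ?_ ?_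
  · simp only [hab]
    exact hIrr
  · rcases hBil with h | h | h | h
    · exact Or.inl (vis_half h)
    · exact Or.inr (Or.inl h)
    · exact Or.inr (Or.inr (Or.inl h))
    · refine Or.inr (Or.inr (Or.inr ?_))
      simp only [hab]
      exact h

end cases

end Pool.Agent.Helper4.IX
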