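import Pool.Agent.Helper4.IX.One

/-!
# The second case
-/

set_option autoImplicit false
set_option linter.unusedSectionVars false

open Polynomial Matrix Finset NumberField IsDedekindDomain

namespace Pool.Agent.Helper4.IX

open Pool.Agent.Helper62.BM Pool.Agent.Helper62.BX Pool.Agent.Helper62.CX Pool.Agent.Helper62.GX
  Pool.Agent.Helper90.BM Pool.Agent.Helper4.BM Pool.Agent.Helper4.BX Pool.Agent.Helper4.CX
  Pool.Agent.Helper62.IX Pool.Agent.Helper62.JX Pool.Agent.Helper62.HX Pool.Agent.Helper4.GX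
open Pool.Agent.Helper62.BW (dt coeff_dt map_dt sep_clear sep_map map_ne Fam Dat Gen)
open Pool.Agent.Helper62.VX (Node1)
open Pool.Agent.Helper4.BW (map_evalRingHom)

/-- the square root of the product and its data -/
theorem half_data (hDataE : H_Data) {κ : Type} [Fintype κ] [DecidableEq κ] {A : Type} [CommRing A]
    [IsDomain A] [CharZero A] (g : ℕ) (hg : 1 ≤ g) (nd : κ → ℕ) (b : κ → A[X][X])
    (hGen : GenG nd b) (hn : ∑ l, nd l = 2 * (g + 1)) (h0 : A) (h22 : 2 * h0 = 1) {i j : κ}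
    {tA xA : A} {a' : κ → A[X]} (hN : NodeG i j b tA xA a') :
    ∃ (G H : A[X][X]) (D : Pool.Agent.Helper62.BW.Dat A g) (P S : Fin (2 * g) → A[X][X]),
      ∏ l, b l = G ^ 2 + H ∧ FamE g G H D P S ∧ D.Ok := by
  have hF1 : (∏ l, b l).Monic := monic_prod_of_monic _ _ fun l _ => (hGen.1 l).1
  have hF2 : (∏ l, b l).natDegree = 2 * (g + 1) := by
    rw [natDegree_prod_of_monic _ _ fun l _ => (hGen.1 l).1, ← hn]
    exact Finset.sum_congr rfl fun l _ => (hGen.1 l).2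
  have h23 : (2 : A[X]) * Polynomial.C h0 = 1 := by
    have h3 : (2 : A[X]) = Polynomial.C 2 := (map_ofNat Polynomial.C 2).symm
    rw [h3, ← C_mul, h22, C_1]
  obtain ⟨G, hG1, hG2, hG3⟩ := sqrt_exists (Polynomial.C h0) h23 (g + 1) (by omega) _ hF1 hF2
  obtain ⟨F, hF⟩ : ∃ F, F = ∏ l, b l := ⟨_, rfl⟩
  rw [← hF] at hG3 ⊢
  have hN1 := node1_of hN
  rw [← hF] at hN1
  have hsep := hGen.2
  rw [← hF] at hsep
  obtain ⟨H, hH⟩ : ∃ H, H = F - G ^ 2 := ⟨_, rfl⟩
  rw [← hH] at hG3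
  have hFG' : F = G ^ 2 + H := by rw [hH]; ring
  rw [hFG'] at hN1 hsep
  obtain ⟨D, P, S, hD, hOk⟩ := hDataE A g hg G H ⟨hG1, hG2, hG3, hsep⟩ tA xA _ hN1
  exact ⟨G, H, D, P, S, hFG', hD, hOk⟩

theorem root_exists (hRoot : I_Root) {κ : Type} [Fintype κ] [DecidableEq κ] {A : Type} [CommRing A]
    [IsDomain A] (m N : ℕ) (ρ nd : κ → ℕ) (h0 : A) (hh : (m : A) * h0 = 1) (b : κ → A[X][X])
    (hb : ∀ l, (b l).Monic ∧ (b l).natDegree = nd l) : ∃ T : A[X][X], RootT m N ρ nd b T := by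
  refine hRoot κ A[X] m N ρ nd (Polynomial.C h0) ?_ b hb
  rw [← map_natCast (Polynomial.C (R := A)) m, ← C_mul, hh, C_1]

section cases

variable (K : Type) [Field K] [NumberField K] {ι : Type} [Fintype ι] [DecidableEq ι]

theorem case2 (hData : I_Data) (hDataE : H_Data) (hFewA : I_FewA) (hRoot : I_Root)
    (nr m r : ℕ) (e nd : ι → ℕ)
    (hm2 : 2 ≤ m) (a : ι → (Rp K nr)[X][X]) (hGen : GenG nd a)
    (hBig : BigV (Cl K nr) m r e nd
      (fun l => (a l).map (mapRingHom (algebraMap (Rp K nr) (Cl K nr))))) :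
    ∃ S : Finset (Cl K nr), ∀ A : Subalgebra (Rp K nr) (Cl K nr), A.FG → (∀ y ∈ S, y ∈ A) →
      FewAt A m (rho m r e) (dI m e nd r)
        (fun l => (a l).map (mapRingHom (algebraMap (Rp K nr) A))) := by
  classical
  obtain ⟨n, c, hn2, hnn, hmc, ⟨i, j, t₀, x₀, a₁, hij, hNode⟩, hIrr, hBil⟩ := hBig
  refine ⟨nodeS t₀ x₀ a₁ ∪ {((m : ℕ) : Cl K nr)⁻¹}, fun A hFG hS => ?_⟩
  have hS1 : ∀ y ∈ nodeS t₀ x₀ a₁, y ∈ A := fun y hy => hS y (Finset.mem_union_left _ hy)
  obtain ⟨ht, hx, hc⟩ := nodeS_mem hS1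
  have hmi : ((m : ℕ) : Cl K nr)⁻¹ ∈ A := hS _ (Finset.mem_union_right _ (by simp))
  have hNode' : NodeG i j (fun l : Vis m r e => ((fun l : Vis m r e => a l) l).map
      (mapRingHom (algebraMap (Rp K nr) (Cl K nr)))) t₀ x₀ a₁ := hNode
  obtain ⟨tA, xA, aA', hNA⟩ := node_sub i j (fun l : Vis m r e => a l) t₀ x₀ a₁ hNode' A ht hx hc
  have hm0 : 0 < m := by omega
  have hval : Function.Injective (A.val : A →+* (Cl K nr)) := Subtype.val_injective
  have h1 : Function.Injective (algebraMap (Rp K nr) A) := by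
    intro x y hxy
    exact alg_inj K nr (congrArg (fun z : A => (z : (Cl K nr))) hxy)
  have h2 : Algebra.FiniteType (Rp K nr) A := (Subalgebra.fg_iff_finiteType A).mp hFG
  have hCZ : CharZero A := charZero_of_injective_algebraMap h1
  have hCR := countable_Rp K nr
  have hCt : Countable A := countable_ft (Rp K nr) A
  have hGenA := genG_vis (genG_map (algebraMap (Rp K nr) A) h1 hGen) m r e
  have hab : ∀ F : (Rp K nr)[X][X], (F.map (mapRingHom (algebraMap (Rp K nr) A))).map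
      (mapRingHom (A.val : A →+* (Cl K nr))) =
      F.map (mapRingHom (algebraMap (Rp K nr) (Cl K nr))) := by
    intro F
    rw [Polynomial.map_map, mapRingHom_comp]
    rfl
  -- `1 / m`
  obtain ⟨h0, hh0⟩ : ∃ h0 : A, (m : A) * h0 = 1 := by
    refine ⟨⟨_, hmi⟩, ?_⟩
    apply hval
    show (A.val : A →+* (Cl K nr)) ((m : A) * ⟨_, hmi⟩) = (A.val : A →+* (Cl K nr)) 1
    rw [map_mul, map_natCast, map_one]
    have hm' : ((m : ℕ) : Cl K nr) ≠ 0 := Nat.cast_ne_zero.2 (by omega)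
    exact mul_inv_cancel₀ hm'
  have hρ : ∀ l : Vis m r e, 0 < rho m r e l ∧ rho m r e l < m := vis_pos hm0
  have hρ2 := vis_add hm0 i j hij
  have hnd1 := nd_pos hGenA hNA i (Or.inl rfl)
  have hnd2 := nd_pos hGenA hNA j (Or.inr rfl)
  have hcn : c < n := c_lt hNode.1 hρ hρ2 hn2 hnn hmc hnd1 hnd2
  obtain ⟨c, rfl⟩ : ∃ c' : Fin (n + 1), (c' : ℕ) = c := ⟨⟨c, by omega⟩, rfl⟩
  have hd : dI m e nd r = (c : ℕ) := by
    unfold dI
    rw [← sum_rho_vis, ← hmc]
    have h3 : m * ((c : ℕ) + 1) - 1 = (m - 1) + m * (c : ℕ) := by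
      have : m * ((c : ℕ) + 1) = m * (c : ℕ) + m := by ring
      omega
    rw [h3, Nat.add_mul_div_left _ _ hm0, Nat.div_eq_of_lt (by omega), zero_add]
  have hT0 := root_exists hRoot m (n + 1) (fun l : Vis m r e => rho m r e l)
    (fun l : Vis m r e => nd l) h0 hh0 _ hGenA.1
  obtain ⟨T, hT⟩ := hT0
  apply fewAt_vis
  rw [hd]
  refine hFewA (Vis m r e) m n (fun l => rho m r e l) (fun l => nd l) c hρ hn2
    hcn hnn hmc A (Cl K nr) (A.val : A →+* (Cl K nr)) hval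
    (fun l => (a l).map (mapRingHom (algebraMap (Rp K nr) A)))
    ⟨T, hData (Vis m r e) A m n _ _ c i j hρ hρ2 hn2 hnn hmc _ hGenA T hT tA xA aA' hNA⟩
    ?_ ?_ ?_
  · intro g hg2 hg
    have h4 : (2 : A) * (rho m r e i : A) = (m : A) := by
      exact_mod_cast congrArg (Nat.cast : ℕ → A) (hg2 i)
    exact half_data hDataE g (by omega) _ _ hGenA (by rw [← hnn, hg]; ring)
      ((rho m r e i : A) * h0) (by rw [← mul_assoc, h4, hh0]) hNA
  · simp only [hab]
    exact hIrr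
  · rcases hBil with h | h | h | h
    · exact Or.inl (vis_half h)
    · exact Or.inr (Or.inl h)
    · exact Or.inr (Or.inr (Or.inl h))
    · refine Or.inr (Or.inr (Or.inr ?_))
      simp only [hab]
      exact h

end cases

end Pool.Agent.Helper4.IX
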